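import Pool.Agent.DiestelL2.Pub

/-!
# MP_19fa38_an: `ℓ²(X)` versus `L²([0,1],X)`

Diestel's question is answered for every separable Banach space `X` (real or complex) which is
isomorphic to a complemented subspace of an `ℓ²`-sum of spaces without complemented copies of
`ℓ²`; in particular (one summand, `Z = X`) for every separable `X` without complemented copies of
`ℓ²`, such as `c₀`, `ℓ^p` (`p ≠ 2`), `L¹`, `C(K)`, the Tsirelson space.
-/

open MeasureTheory
open scoped unitInterval

namespace Pool.Agent.Results.MP_19fa38_an.NoComplementedHilbert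

universe u v

open DiestelL2

/-- Let `X` be a separable Banach space over `𝕜 = ℝ` or `ℂ` which is isomorphic to a complemented
subspace of the `ℓ²`-sum of normed spaces `Z i`, none of which contains a complemented copy of
`ℓ²`.  Then `ℓ²(X)` and `L²([0,1],X)` are isomorphic if and only if `X` is isomorphic to a
Hilbert space. -/
theorem result (𝕜 : Type v) [RCLike 𝕜] (X : Type u) [NormedAddCommGroup X]
    [NormedSpace 𝕜 X] [CompleteSpace X] [TopologicalSpace.SeparableSpace X] (ι : Type)
    (Z : ι → Type u) [∀ i, NormedAddCommGroup (Z i)] [∀ i, NormedSpace 𝕜 (Z i)]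
    (hZ : ∀ i, ¬ ComplIn 𝕜 (lp (fun _ : ℕ => 𝕜) 2) (Z i)) (hX : ComplIn 𝕜 X (lp Z 2)) :
    Isom 𝕜 (lp (fun _ : ℕ => X) 2) (Lp X 2 (volume : Measure I)) ↔ IsHilbertian 𝕜 X :=
  diestel_pub 𝕜 X ι Z hZ hX

end Pool.Agent.Results.MP_19fa38_an.NoComplementedHilbert
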