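import Pool.Agent.LTC.Ex

/-!
# MP_19fa38_an: `ℓ²(X)` versus `L²([0,1],X)` for subspaces of Banach lattices on one side of `2`

A Banach function space lies on one side of `2` (`FnNorm.OneSide`) if it is `s`-convex for some
`s > 2` and `r`-concave for some `r < ∞`, or `s`-concave for some `s < 2`, or both `2`-convex and
`2`-concave.  Let `Z` be an `ℓ²`-sum of such spaces, with uniformly bounded constants and uniformly
bounded concavity exponents `r` (the exponents `s` may tend to `2` from both sides).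

If a separable Banach space `X`, or its dual, is isomorphic to a subspace of `Z`, then `ℓ²(X)` and
`L²([0,1],X)` are isomorphic if and only if `X` is isomorphic to a Hilbert space.  Examples of such
`Z` are all `ℓ²`-sums of spaces `L_p`, `1 ≤ p ≤ P < ∞`, and of mixed-norm spaces `L_p(L_q)` with
`p, q` on the same side of `2`.
-/

open MeasureTheory
open scoped unitInterval ENNReal NNReal

namespace Pool.Agent.Results.MP_19fa38_an.OneSideOfTwo

universe u v w

open DiestelL2 DLP HLP LTC

/-- Let `𝕜 = ℝ` or `ℂ`.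
(1) Let `X` be a separable Banach space such that `X` or `X*` is isomorphic to a subspace of an
`ℓ²`-sum of Banach function spaces on one side of `2`.  Then `ℓ²(X)` and `L²([0,1],X)` are
isomorphic if and only if `X` is isomorphic to a Hilbert space.
(2) If `X` itself is isomorphic to a subspace of such a sum, then `L²([0,1],X)` is isomorphic to a
subspace of `ℓ²(X)` if and only if `X` is isomorphic to a Hilbert space.
(3) The class of (1) and (2) contains all spaces that are isomorphic to a subspace of an `ℓ²`-sum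
of spaces `L_{p_i}(μ_i)` with `1 ≤ p_i ≤ P < ∞`.
(4) The mixed-norm spaces `L_p(μ; L_q(ν))`, with `p, q > 2`, or `p, q < 2`, or `p = q = 2`, lie on
one side of `2`, with constant `1`. -/
theorem result (𝕜 : Type v) [RCLike 𝕜] :
    (∀ (X : Type u) [NormedAddCommGroup X] [NormedSpace 𝕜 X] [CompleteSpace X]
      [TopologicalSpace.SeparableSpace X],
      (InOneSideSum.{u, v, w} 𝕜 X ∨ InOneSideSum.{max u v, v, w} 𝕜 (StrongDual 𝕜 X) →
        (Isom 𝕜 (lp (fun _ : ℕ => X) 2) (Lp X 2 (volume : Measure I)) ↔ IsHilbertian 𝕜 X)) ∧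
      (InOneSideSum.{u, v, w} 𝕜 X →
        (Embeds 𝕜 (Lp X 2 (volume : Measure I)) (lp (fun _ : ℕ => X) 2) ↔ IsHilbertian 𝕜 X))) ∧
    (∀ (E : Type u) [NormedAddCommGroup E] [NormedSpace 𝕜 E],
      InLpSum.{u, v, w} 𝕜 E → InOneSideSum.{u, v, w} 𝕜 E) ∧
    (∀ (S T : Type w) [MeasurableSpace S] [MeasurableSpace T] (μ : Measure S) (ν : Measure T)
      [SFinite ν] (p q R : ℝ) (hp : 1 ≤ p) (hq : 1 ≤ q), p ≤ R → q ≤ R →
      (2 < p ∧ 2 < q ∨ p < 2 ∧ q < 2 ∨ p = 2 ∧ q = 2) →
        ((normLp p hp μ).mixed q hq ν).OneSide R 1) :=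
  ⟨fun X _ _ _ _ => LTC.main_lat 𝕜 X, fun E _ _ h => LTC.sum_of_lp 𝕜 E h,
    fun _ _ _ _ μ ν _ p q R hp hq hpR hqR h => LTC.mixed_oneSide p q hp hq μ ν R hpR hqR h⟩

end Pool.Agent.Results.MP_19fa38_an.OneSideOfTwo
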